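import Pool.Agent.Y386.IR.Stm2

/-!
# Project IR, task PROD2: the product fractional colouring of the lexicographic product of a circular
clique and a graph (helper87)
-/

set_option autoImplicit false

namespace Pool.Agent.Y87.IR

open Pool.Agent.H692R2 Pool.Agent.Y386.IR Finset

/-- a fractional colouring as a probability measure on the independent sets -/
theorem exists_prob {W : Type} [Fintype W] (H : SimpleGraph W) (s c : ℝ) (h : FracCol H s)
    (hs : s ≤ c) : ∃ p : Finset W → ℝ, (∀ I, 0 ≤ p I) ∧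
      (∀ I : Finset W, p I ≠ 0 → H.IsIndepSet (I : Set W)) ∧ ∑ I, p I = 1 ∧
      ∀ (v : W) (T : Finset (Finset W)), (∀ I, I ∈ T ↔ v ∈ I) → 1 ≤ c * ∑ I ∈ T, p I := by
  classical
  obtain ⟨u, hu0, hui, huc, hut⟩ := h
  have huc' : ∀ (v : W) (T : Finset (Finset W)), (∀ I, I ∈ T ↔ v ∈ I) → 1 ≤ ∑ I ∈ T, u I := by
    intro v T hT
    refine (huc v).trans (le_of_eq ?_)
    refine sum_congr ?_ fun _ _ => rfl
    ext I
    rw [hT, mem_filter]
    simp
  rcases lt_or_ge 0 s with hs0 | hs0
  · refine ⟨fun I => u I / s, fun I => div_nonneg (hu0 I) hs0.le, ?_, ?_, ?_⟩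
    · intro I hI
      refine hui I fun h => hI ?_
      show u I / s = 0
      rw [h, zero_div]
    · rw [← sum_div, hut, div_self hs0.ne']
    · intro v T hT
      have h1 := huc' v T hT
      rw [← sum_div, mul_div_assoc', le_div_iff₀ hs0, one_mul]
      calc s ≤ c := hs
        _ = c * 1 := (mul_one c).symm
        _ ≤ c * ∑ I ∈ T, u I := mul_le_mul_of_nonneg_left h1 (hs0.le.trans hs)
  · have hemp : ∀ v : W, False := by
      intro v
      have h1 := huc' v (univ.filter fun I => v ∈ I) (fun I => by simp)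
      have h2 : ∑ I ∈ univ.filter (fun I => v ∈ I), u I ≤ ∑ I, u I :=
        sum_le_sum_of_subset_of_nonneg (filter_subset _ _) fun I _ _ => hu0 I
      linarith
    refine ⟨fun I => if I = ∅ then 1 else 0, fun I => by positivity, ?_, ?_, fun v => (hemp v).elim⟩
    · intro I _ v
      exact (hemp v).elim
    · rw [sum_ite_eq' univ ∅ (fun _ => (1 : ℝ)), if_pos (mem_univ _)]

theorem t_PROD2 (hW : S_WFAM) : S_PROD2 := by
  classical
  intro V A _ _ G a b x y τ J hb hτ hJ hy hcol
  have hb' : (0 : ℝ) < 2 * b := by positivity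
  choose s hs1 hs2 using hcol
  choose p hp0 hpi hp1 hpc using fun i => exists_prob _ _ _ (hs1 i) (hs2 i)
  let w : A × (∀ i : Fin a, Finset (Σ v : V, Fin (x (i, v)))) → ℝ :=
    fun q => τ / (2 * b) * ∏ i, p i (q.2 i)
  let J' : A × (∀ i : Fin a, Finset (Σ v : V, Fin (x (i, v)))) →
      Finset (Σ z : Fin a × V, Fin (x z)) :=
    fun q => univ.filter fun z => z.1.1 ∈ J q.1 ∧
      (⟨z.1.2, z.2⟩ : Σ v : V, Fin (x (z.1.1, v))) ∈ q.2 z.1.1
  have hmem : ∀ q z, z ∈ J' q ↔ z.1.1 ∈ J q.1 ∧
      (⟨z.1.2, z.2⟩ : Σ v : V, Fin (x (z.1.1, v))) ∈ q.2 z.1.1 := by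
    intro q z
    rw [mem_filter]
    exact ⟨fun h => h.2, fun h => ⟨mem_univ _, h⟩⟩
  have htot : ∑ f : (∀ i : Fin a, Finset (Σ v : V, Fin (x (i, v)))), ∏ i, p i (f i) = 1 := by
    have h1 := Finset.prod_univ_sum (fun i : Fin a =>
      (univ : Finset (Finset (Σ v : V, Fin (x (i, v)))))) (fun i I => p i I)
    rw [Fintype.piFinset_univ] at h1
    rw [← h1]
    exact prod_eq_one fun i _ => hp1 i
  have h := hW _ _ (replicated (lexK a b G) x) w J' ?_ ?_ ?_
  · refine h.trans (le_of_eq ?_)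
    rw [Fintype.sum_prod_type]
    simp only [w]
    rw [Finset.sum_congr rfl fun c _ => by rw [← mul_sum, htot, mul_one]]
    rw [sum_const, card_univ, nsmul_eq_mul]
    ring
  · intro q
    exact mul_nonneg (div_nonneg hτ hb'.le) (prod_nonneg fun i _ => hp0 i _)
  · intro q hq
    have hne : ∀ i, p i (q.2 i) ≠ 0 := by
      intro i h
      apply hq
      simp only [w]
      rw [prod_eq_zero (mem_univ i) h, mul_zero]
    rintro ⟨⟨i, v⟩, k⟩ hz ⟨⟨i', v'⟩, k'⟩ hz' hne' hadj
    have h1 := (hmem q _).1 hz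
    have h2 := (hmem q _).1 hz'
    simp only at h1 h2
    have hind := hpi i _ (hne i)
    rcases hadj with ⟨he, -⟩ | hadj
    · simp only [Prod.mk.injEq] at he
      obtain ⟨rfl, rfl⟩ := he
      have hkk : (⟨v, k⟩ : Σ v : V, Fin (x (i, v))) ≠ ⟨v, k'⟩ := by
        intro h
        apply hne'
        have : k = k' := eq_of_heq (Sigma.mk.inj_iff.1 h).2
        rw [this]
      exact hind h1.2 h2.2 hkk (Or.inl ⟨rfl, hkk⟩)
    · rcases hadj with ⟨he, hG⟩ | ⟨_, hC⟩
      · simp only at he hG
        subst he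
        have hkk : (⟨v, k⟩ : Σ v : V, Fin (x (i, v))) ≠ ⟨v', k'⟩ := by
          intro h
          exact hG.ne (Sigma.mk.inj_iff.1 h).1
        exact hind h1.2 h2.2 hkk (Or.inr hG)
      · exact hJ q.1 i h1.1 i' h2.1 hC
  · rintro ⟨⟨i, v⟩, k⟩
    -- the sets through the vertex
    let z : Σ v : V, Fin (x (i, v)) := ⟨v, k⟩
    let t : ∀ j : Fin a, Finset (Finset (Σ v : V, Fin (x (j, v)))) :=
      Function.update (fun _ => univ) i (univ.filter fun I => z ∈ I)
    have hti : t i = univ.filter fun I => z ∈ I := Function.update_self ..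
    have htj : ∀ j, j ≠ i → t j = univ := fun j hj => Function.update_of_ne hj ..
    have hset : (univ.filter fun q : A × (∀ i : Fin a, Finset (Σ v : V, Fin (x (i, v)))) =>
        (⟨⟨i, v⟩, k⟩ : Σ z : Fin a × V, Fin (x z)) ∈ J' q) =
        (univ.filter fun s => i ∈ J s) ×ˢ Fintype.piFinset t := by
      ext q
      constructor
      · intro hq
        obtain ⟨h1, h2⟩ := (hmem q _).1 (mem_filter.1 hq).2
        refine mem_product.2 ⟨mem_filter.2 ⟨mem_univ _, h1⟩,
          Fintype.mem_piFinset.2 fun j => ?_⟩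
        by_cases hj : j = i
        · subst hj
          rw [hti]
          exact mem_filter.2 ⟨mem_univ _, h2⟩
        · rw [htj j hj]
          exact mem_univ _
      · intro hq
        obtain ⟨h1, h2⟩ := mem_product.1 hq
        refine mem_filter.2 ⟨mem_univ _, (hmem q _).2 ⟨(mem_filter.1 h1).2, ?_⟩⟩
        have h3 := Fintype.mem_piFinset.1 h2 i
        rw [hti] at h3
        exact (mem_filter.1 h3).2
    have hsum : ∑ q ∈ (univ.filter fun s => i ∈ J s) ×ˢ Fintype.piFinset t, w q =
        #{s | i ∈ J s} * (τ / (2 * b) * ∑ I ∈ univ.filter (fun I => z ∈ I), p i I) := by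
      rw [sum_product]
      simp only [w]
      have h1 : ∑ f ∈ Fintype.piFinset t, ∏ j, p j (f j) =
          ∑ I ∈ univ.filter (fun I => z ∈ I), p i I := by
        rw [← Finset.prod_univ_sum t (fun j I => p j I), Finset.prod_eq_single i]
        · rw [hti]
        · intro j _ hj
          rw [htj j hj]
          exact hp1 j
        · intro h
          exact absurd (mem_univ _) h
      rw [Finset.sum_congr rfl fun c _ => by rw [← mul_sum, h1]]
      rw [sum_const, nsmul_eq_mul]
    have hge : (1 : ℝ) ≤ ∑ q ∈ (univ.filter fun s => i ∈ J s) ×ˢ Fintype.piFinset t, w q := by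
      rw [hsum]
      have h1 := hpc i z (univ.filter fun I => z ∈ I) (fun I => by simp)
      have h2 : (0 : ℝ) ≤ ∑ I ∈ univ.filter (fun I => z ∈ I), p i I := sum_nonneg fun I _ => hp0 i I
      have h3 : ((2 * b * y i : ℕ) : ℝ) ≤ (#{s | i ∈ J s} : ℕ) := Nat.cast_le.2 (hy i)
      push_cast at h3
      calc (1 : ℝ) ≤ τ * y i * ∑ I ∈ univ.filter (fun I => z ∈ I), p i I := h1
        _ = (2 * b * y i) * (τ / (2 * b) * ∑ I ∈ univ.filter (fun I => z ∈ I), p i I) := by
          field_simp
        _ ≤ _ := mul_le_mul_of_nonneg_right h3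
          (mul_nonneg (div_nonneg hτ hb'.le) h2)
    refine hge.trans (le_of_eq ?_)
    rw [← hset]
    refine sum_congr ?_ fun _ _ => rfl
    ext q
    simp only [mem_filter, mem_univ, true_and]

end Pool.Agent.Y87.IR
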